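import Mathlib
import Pool.Agent.H39.Sq1
import Pool.Agent.H39.Sq2
import Pool.Agent.H39.Sq3
import Pool.Agent.H39.Sq4

open Finset Filter
open Pool.Agent.H39.Sq

namespace Pool.Agent.Results.MP_9c9474_nt.Growth

/-- `N(x)`: the number of `n < x` which are the length of a block of consecutive positive integers
whose squares add up to a perfect square. -/
noncomputable def N (x : ℝ) : ℕ := Set.ncard {n : ℕ | IsLen n ∧ (n : ℝ) < x}

/-- the data attached to a prime `p = 1 mod 12` -/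
theorem exists_family (p : ℕ) (hp : p.Prime) (h12 : p % 12 = 1) :
    ∃ (k u : ℕ) (D : ℕ → ℕ), 1 ≤ k ∧ k ^ 2 < p ∧ u < p ∧
      (∀ j, D j * p + 1 = 12 * (u + p * j) ^ 2) ∧ (∀ j, IsLen (D j * k ^ 2)) := by
  obtain ⟨k, v, hk, hv, hk2, hkv⟩ := exists_rep p hp h12
  obtain ⟨u, hu1, hup, hdvd⟩ := exists_root p hp h12
  have hD : ∀ j, ∃ D : ℕ, D * p + 1 = 12 * (u + p * j) ^ 2 := by
    intro j
    obtain ⟨c, hc⟩ := hdvd
    have hu2 : 1 ≤ 12 * u ^ 2 := by
      have : 1 ≤ u ^ 2 := Nat.one_le_pow _ _ hu1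
      omega
    refine ⟨c + 24 * u * j + 12 * p * j ^ 2, ?_⟩
    have h1 : 12 * u ^ 2 = p * c + 1 := by omega
    have h2 : 12 * (u + p * j) ^ 2 = 12 * u ^ 2 + p * (24 * u * j + 12 * p * j ^ 2) := by ring
    rw [h2, h1]; ring
  choose D hD using hD
  refine ⟨k, u, D, hk, ?_, hup, hD, ?_⟩
  · have : 1 ≤ v ^ 2 := Nat.one_le_pow _ _ hv
    omega
  · intro j
    apply isLen_of (D j) k v (u + p * j) hk hv _ hk2
    · rw [hkv]; exact hD j
    · have h1 := hD j
      obtain ⟨m, hm⟩ : ∃ m, p = 12 * m + 1 := ⟨p / 12, by omega⟩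
      have h2 : D j * p = 12 * (D j * m) + D j := by rw [hm]; ring
      rw [h2] at h1
      generalize (u + p * j) ^ 2 = z at h1
      generalize D j * m = y at h1
      omega

/-- overlaps of two families are sparse -/
theorem overlap (p q k l u v : ℕ) (D D' : ℕ → ℕ) (hp : p.Prime) (hq : q.Prime) (hpq : p ≠ q)
    (hk : 1 ≤ k) (hl : 1 ≤ l)
    (hD : ∀ j, D j * p + 1 = 12 * (u + p * j) ^ 2)
    (hD' : ∀ j, D' j * q + 1 = 12 * (v + q * j) ^ 2) (d : ℕ) :
    ∃ B : ℕ, ∀ i j, B ≤ i → i < j → (∃ i', D i * k ^ 2 = D' i' * l ^ 2) →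
      (∃ j', D j * k ^ 2 = D' j' * l ^ 2) → d ≤ j - i := by
  set α : ℤ := q * k ^ 2 with hα
  set β : ℤ := p * l ^ 2 with hβ
  have hp0 : (0 : ℤ) < p := by exact_mod_cast hp.pos
  have hq0 : (0 : ℤ) < q := by exact_mod_cast hq.pos
  have hα0 : 0 < α := by rw [hα]; positivity
  have hβ0 : 0 < β := by rw [hβ]; positivity
  -- 144 α β is not a square
  have hsq : ∀ w : ℕ, p * q * (k * l) ^ 2 ≠ w ^ 2 := by
    intro w hw
    have h1 : (k * l) ^ 2 ∣ w ^ 2 := ⟨p * q, by rw [← hw]; ring⟩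
    have h2 : k * l ∣ w := (Nat.pow_dvd_pow_iff (by norm_num)).mp h1
    obtain ⟨c, hc⟩ := h2
    have hkl : 0 < k * l := Nat.mul_pos hk hl
    have h3 : p * q = c ^ 2 := by
      have : (k * l) ^ 2 * (p * q) = (k * l) ^ 2 * c ^ 2 := by
        calc (k * l) ^ 2 * (p * q) = w ^ 2 := by rw [← hw]; ring
          _ = (k * l) ^ 2 * c ^ 2 := by rw [hc]; ring
      exact Nat.eq_of_mul_eq_mul_left (by positivity) this
    have h4 : p ∣ c := hp.dvd_of_dvd_pow (Dvd.intro q h3)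
    obtain ⟨t, ht⟩ := h4
    have h5 : q = p * t ^ 2 := by
      have : p * q = p * (p * t ^ 2) := by rw [h3, ht]; ring
      exact Nat.eq_of_mul_eq_mul_left hp.pos this
    have h6 : p ∣ q := ⟨_, h5⟩
    exact hpq ((Nat.prime_dvd_prime_iff_eq hp hq).mp h6)
  have hE : ¬ IsSquare (144 * α * β : ℤ) := by
    rintro ⟨w, hw⟩
    have h0 : (12 : ℤ) ^ 2 ∣ w ^ 2 := ⟨α * β, by rw [sq w, ← hw]; ring⟩
    have h1 : (12 : ℤ) ∣ w := (Int.pow_dvd_pow_iff (by norm_num)).mp h0
    obtain ⟨c, hc⟩ := h1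
    have h2 : α * β = c ^ 2 := by
      rw [hc] at hw
      have : 144 * (α * β - c ^ 2) = 0 := by linear_combination hw
      have := (mul_eq_zero.mp this).resolve_left (by norm_num)
      linarith
    apply hsq c.natAbs
    zify
    rw [sq_abs, ← h2, hα, hβ]; ring
  have hne : α ≠ β := by
    intro h
    apply hE
    exact ⟨12 * α, by rw [← h]; ring⟩
  obtain ⟨B, hB⟩ := gap_lemma (144 * α * β) (12 * β * (β - α)) (by positivity) hE
    (by
      apply mul_ne_zero (by positivity)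
      intro h; apply hne; linarith) (p * d)
  refine ⟨B, ?_⟩
  rintro i j hBi hij ⟨i', hi'⟩ ⟨j', hj'⟩
  by_contra hcon
  push Not at hcon
  have key : ∀ i i' : ℕ, D i * k ^ 2 = D' i' * l ^ 2 →
      (12 * β * ((v : ℤ) + q * i')) ^ 2 = 144 * α * β * ((u : ℤ) + p * i) ^ 2
        + 12 * β * (β - α) := by
    intro i i' h
    have h1 : (D i : ℤ) * p + 1 = 12 * (u + p * i) ^ 2 := by exact_mod_cast hD i
    have h2 : (D' i' : ℤ) * q + 1 = 12 * (v + q * i') ^ 2 := by exact_mod_cast hD' i'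
    have h3 : (D i : ℤ) * k ^ 2 = D' i' * l ^ 2 := by exact_mod_cast h
    have h4 : α * (12 * ((u : ℤ) + p * i) ^ 2 - 1) = β * (12 * ((v : ℤ) + q * i') ^ 2 - 1) := by
      rw [← h1, ← h2, hα, hβ]
      linear_combination (q * p : ℤ) * h3
    linear_combination (-12 * β) * h4
  refine hB ((u : ℤ) + p * i) ((u : ℤ) + p * j) _ _ ?_ ?_ ?_ (key i i' hi') (key j j' hj')
  · have : (B : ℤ) ≤ i := by exact_mod_cast hBi
    have h1 : (i : ℤ) ≤ p * i := by nlinarith
    have : (0 : ℤ) ≤ u := by positivity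
    linarith
  · have : (i : ℤ) < j := by exact_mod_cast hij
    nlinarith
  · have h1 : (j : ℤ) - i ≤ d := by omega
    push_cast
    nlinarith

/-- a lower bound for the number of elements -/
theorem lower (P : Finset ℕ) (hP : ∀ p ∈ P, p.Prime ∧ p % 12 = 1) :
    ∃ K : ℝ, ∀ x : ℝ, 0 ≤ x →
      (1 / 2) * (Real.sqrt x / Real.sqrt 12 * ∑ p ∈ P, (1 : ℝ) / p) - K ≤ N x := by
  classical
  have hfam : ∀ p : ℕ, ∃ (k u : ℕ) (D : ℕ → ℕ), p ∈ P → 1 ≤ k ∧ k ^ 2 < p ∧ u < p ∧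
      (∀ j, D j * p + 1 = 12 * (u + p * j) ^ 2) ∧ (∀ j, IsLen (D j * k ^ 2)) := by
    intro p
    by_cases hp : p ∈ P
    · obtain ⟨k, u, D, h⟩ := exists_family p (hP p hp).1 (hP p hp).2
      exact ⟨k, u, D, fun _ => h⟩
    · exact ⟨0, 0, fun _ => 0, fun h => absurd h hp⟩
  choose k u D hD using hfam
  set g : ℕ → ℕ → ℕ := fun p j => D p j * k p ^ 2 with hg
  set M : ℕ := P.card with hM
  have hov : ∀ p q : ℕ, ∃ B : ℕ, p ∈ P → q ∈ P → p ≠ q → ∀ i j, B ≤ i → i < j →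
      (∃ i', g p i = g q i') → (∃ j', g p j = g q j') → 2 * (M + 1) ≤ j - i := by
    intro p q
    by_cases h : p ∈ P ∧ q ∈ P ∧ p ≠ q
    · obtain ⟨hp, hq, hpq⟩ := h
      obtain ⟨B, hB⟩ := overlap p q (k p) (k q) (u p) (u q) (D p) (D q) (hP p hp).1 (hP q hq).1 hpq
        (hD p hp).1 (hD q hq).1 (hD p hp).2.2.2.1 (hD q hq).2.2.2.1 (2 * (M + 1))
      exact ⟨B, fun _ _ _ => hB⟩
    · exact ⟨0, fun hp hq hpq => absurd ⟨hp, hq, hpq⟩ h⟩
  choose B hB using hov
  set B0 : ℕ := ∑ p ∈ P, ∑ q ∈ P, B p q with hB0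
  have hBle : ∀ p ∈ P, ∀ q ∈ P, B p q ≤ B0 := by
    intro p hp q hq
    calc B p q ≤ ∑ q ∈ P, B p q := Finset.single_le_sum (fun _ _ => Nat.zero_le _) hq
      _ ≤ B0 := Finset.single_le_sum (f := fun p => ∑ q ∈ P, B p q) (fun _ _ => Nat.zero_le _) hp
  refine ⟨(M : ℝ) * (M * (B0 + 1)) + M, ?_⟩
  intro x hx
  -- strict monotonicity of g p
  have hinj : ∀ p ∈ P, Function.Injective (g p) := by
    intro p hp i j hij
    obtain ⟨hk, hkp, hup, hDj, hL⟩ := hD p hp
    have hk0 : 0 < k p ^ 2 := by positivity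
    have h1 : D p i = D p j := Nat.eq_of_mul_eq_mul_right hk0 hij
    have h2 : 12 * (u p + p * i) ^ 2 = 12 * (u p + p * j) ^ 2 := by rw [← hDj i, ← hDj j, h1]
    have h3 : (u p + p * i) ^ 2 = (u p + p * j) ^ 2 := by omega
    have h4 : u p + p * i = u p + p * j := by
      exact Nat.pow_left_injective (n := 2) (by norm_num) h3
    exact Nat.eq_of_mul_eq_mul_left (hP p hp).1.pos (by omega)
  have hsize : ∀ p ∈ P, ∀ j, (g p j : ℝ) < 12 * (p : ℝ) ^ 2 * (j + 1) ^ 2 := by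
    intro p hp j
    obtain ⟨hk, hkp, hup, hDj, hL⟩ := hD p hp
    have hpos := (hP p hp).1.pos
    have h1 : D p j * p < 12 * (p * (j + 1)) ^ 2 := by
      have h2 := hDj j
      have h3 : (u p + p * j) ^ 2 ≤ (p * (j + 1)) ^ 2 := by
        apply Nat.pow_le_pow_left
        have : p * (j + 1) = p * j + p := by ring
        omega
      omega
    have h4 : g p j < 12 * p ^ 2 * (j + 1) ^ 2 := by
      have h5 : g p j ≤ D p j * p := Nat.mul_le_mul_left _ hkp.le
      have h6 : 12 * (p * (j + 1)) ^ 2 = 12 * p ^ 2 * (j + 1) ^ 2 := by ring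
      omega
    exact_mod_cast h4
  set J : ℕ → ℕ := fun p => ⌊Real.sqrt x / (Real.sqrt 12 * p)⌋₊ with hJ
  set A : ℕ → Finset ℕ := fun p =>
    ((Finset.range (J p)).filter (fun i => ∀ q ∈ P, q ≠ p → ¬ ∃ i', g p i = g q i')).image (g p)
    with hA
  have hdisj : (P : Set ℕ).PairwiseDisjoint A := by
    intro p hp q hq hpq
    rw [Function.onFun, Finset.disjoint_left]
    intro n hn hn'
    simp only [hA, Finset.mem_image, Finset.mem_filter] at hn hn'
    obtain ⟨i, ⟨_, hi⟩, rfl⟩ := hn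
    obtain ⟨j, _, hj⟩ := hn'
    exact hi q hq (Ne.symm hpq) ⟨j, hj.symm⟩
  have hsub : (P.biUnion A : Set ℕ) ⊆ {n : ℕ | IsLen n ∧ (n : ℝ) < x} := by
    intro n hn
    rw [Finset.mem_coe, Finset.mem_biUnion] at hn
    obtain ⟨p, hp, hn⟩ := hn
    simp only [hA, Finset.mem_image, Finset.mem_filter, Finset.mem_range] at hn
    obtain ⟨i, ⟨hi, _⟩, rfl⟩ := hn
    refine ⟨(hD p hp).2.2.2.2 i, ?_⟩
    have hpos : (0 : ℝ) < p := by exact_mod_cast (hP p hp).1.pos
    have h1 : ((i : ℝ) + 1) ≤ Real.sqrt x / (Real.sqrt 12 * p) := by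
      have h2 : i + 1 ≤ J p := hi
      have h3 : ((i + 1 : ℕ) : ℝ) ≤ Real.sqrt x / (Real.sqrt 12 * p) :=
        (Nat.le_floor_iff (by positivity)).mp h2
      push_cast at h3
      exact h3
    have h12 : (0 : ℝ) < Real.sqrt 12 * p := by positivity
    rw [le_div_iff₀ h12] at h1
    have h2 : (((i : ℝ) + 1) * (Real.sqrt 12 * p)) ^ 2 ≤ (Real.sqrt x) ^ 2 :=
      pow_le_pow_left₀ (by positivity) h1 2
    rw [Real.sq_sqrt hx] at h2
    have h3 : (((i : ℝ) + 1) * (Real.sqrt 12 * p)) ^ 2 = 12 * (p : ℝ) ^ 2 * (i + 1) ^ 2 := by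
      rw [mul_pow, mul_pow, Real.sq_sqrt (by norm_num)]; ring
    rw [h3] at h2
    exact lt_of_lt_of_le (hsize p hp i) h2
  have hfin : {n : ℕ | IsLen n ∧ (n : ℝ) < x}.Finite := by
    apply (Set.finite_Iio (⌈x⌉₊)).subset
    intro n hn
    exact Nat.lt_ceil.mpr hn.2
  have hcard : (P.biUnion A).card ≤ N x := by
    have := Set.ncard_le_ncard hsub hfin
    rw [Set.ncard_coe_finset] at this
    exact this
  rw [Finset.card_biUnion hdisj] at hcard
  -- lower bound for each piece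
  have hpiece : ∀ p ∈ P, J p ≤ 2 * ((A p).card + M * (B0 + 1)) := by
    intro p hp
    have h1 : (A p).card = ((Finset.range (J p)).filter
        (fun i => ∀ q ∈ P, q ≠ p → ¬ ∃ i', g p i = g q i')).card :=
      Finset.card_image_of_injective _ (hinj p hp)
    have h2 : Finset.range (J p) ⊆ ((Finset.range (J p)).filter
        (fun i => ∀ q ∈ P, q ≠ p → ¬ ∃ i', g p i = g q i')) ∪
        (P.erase p).biUnion (fun q => (Finset.range (J p)).filter (fun i => ∃ i', g p i = g q i')) := by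
      intro i hi
      rw [Finset.mem_union, Finset.mem_filter, Finset.mem_biUnion]
      by_cases h : ∀ q ∈ P, q ≠ p → ¬ ∃ i', g p i = g q i'
      · exact Or.inl ⟨hi, h⟩
      · push Not at h
        obtain ⟨q, hq, hqp, h⟩ := h
        exact Or.inr ⟨q, Finset.mem_erase.mpr ⟨hqp, hq⟩, Finset.mem_filter.mpr ⟨hi, h⟩⟩
    have h3 := Finset.card_le_card h2
    rw [Finset.card_range] at h3
    have h4 : ((P.erase p).biUnion (fun q => (Finset.range (J p)).filter
        (fun i => ∃ i', g p i = g q i'))).card ≤ M * (B0 + J p / (2 * (M + 1)) + 1) := by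
      refine (Finset.card_biUnion_le).trans ?_
      calc ∑ q ∈ P.erase p, ((Finset.range (J p)).filter (fun i => ∃ i', g p i = g q i')).card
          ≤ ∑ q ∈ P.erase p, (B0 + J p / (2 * (M + 1)) + 1) := by
            apply Finset.sum_le_sum
            intro q hq
            rw [Finset.mem_erase] at hq
            have h5 := count_lemma (fun i => ∃ i', g p i = g q i') (2 * (M + 1)) (B p q) (J p)
              (by omega) (hB p q hp hq.2 (Ne.symm hq.1))
            have h6 := hBle p hp q hq.2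
            omega
        _ = (P.erase p).card * (B0 + J p / (2 * (M + 1)) + 1) := by
            rw [Finset.sum_const, smul_eq_mul]
        _ ≤ M * (B0 + J p / (2 * (M + 1)) + 1) :=
            Nat.mul_le_mul_right _ (Finset.card_le_card (Finset.erase_subset _ _))
    have h5 := Finset.card_union_le ((Finset.range (J p)).filter
        (fun i => ∀ q ∈ P, q ≠ p → ¬ ∃ i', g p i = g q i'))
        ((P.erase p).biUnion (fun q => (Finset.range (J p)).filter (fun i => ∃ i', g p i = g q i')))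
    have h6 : 2 * (M * (J p / (2 * (M + 1)))) ≤ J p := by
      have h7 : J p / (2 * (M + 1)) * (2 * (M + 1)) ≤ J p := Nat.div_mul_le_self _ _
      nlinarith [Nat.zero_le (J p / (2 * (M + 1)))]
    have h8 : M * (B0 + J p / (2 * (M + 1)) + 1) = M * (B0 + 1) + M * (J p / (2 * (M + 1))) := by ring
    rw [h8] at h4
    rw [h1]
    omega
  have hpiece' : ∀ p ∈ P, (1 / 2) * (Real.sqrt x / Real.sqrt 12 * ((1 : ℝ) / p)) - (M * (B0 + 1) + 1)
      ≤ ((A p).card : ℝ) := by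
    intro p hp
    have hpos : (0 : ℝ) < p := by exact_mod_cast (hP p hp).1.pos
    have h1 : Real.sqrt x / (Real.sqrt 12 * p) < J p + 1 := Nat.lt_floor_add_one _
    have h2 : (J p : ℝ) ≤ 2 * ((A p).card + M * (B0 + 1)) := by exact_mod_cast hpiece p hp
    have h3 : Real.sqrt x / Real.sqrt 12 * ((1 : ℝ) / p) = Real.sqrt x / (Real.sqrt 12 * p) := by
      rw [div_mul_div_comm, mul_one]
    rw [h3]
    linarith
  have hsum := Finset.sum_le_sum hpiece'
  have hcard' : (∑ p ∈ P, ((A p).card : ℝ)) ≤ N x := by exact_mod_cast hcard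
  rw [Finset.sum_sub_distrib, Finset.sum_const, nsmul_eq_mul] at hsum
  have e1 : ∑ p ∈ P, (1 / 2) * (Real.sqrt x / Real.sqrt 12 * ((1 : ℝ) / p))
      = (1 / 2) * (Real.sqrt x / Real.sqrt 12 * ∑ p ∈ P, (1 : ℝ) / p) := by
    rw [Finset.mul_sum, Finset.mul_sum]
  rw [e1] at hsum
  have e2 : (P.card : ℝ) * (M * (B0 + 1) + 1) = M * (M * (B0 + 1)) + M := by rw [← hM]; ring
  rw [e2] at hsum
  linarith

/-- `N(x) / sqrt x` tends to infinity. -/
theorem result : Tendsto (fun x : ℝ => (N x : ℝ) / Real.sqrt x) atTop atTop := by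
  rw [Filter.tendsto_atTop]
  intro C
  obtain ⟨P, hP, hsum⟩ := exists_primes (2 * Real.sqrt 12 * (|C| + 1))
  obtain ⟨K, hK⟩ := lower P hP
  have h12 : (0 : ℝ) < Real.sqrt 12 := by positivity
  filter_upwards [Filter.eventually_ge_atTop (1 : ℝ),
    Filter.eventually_ge_atTop (K ^ 2)] with x hx1 hxK
  have hsx : 1 ≤ Real.sqrt x := by rw [Real.one_le_sqrt]; exact hx1
  have hKs : K ≤ Real.sqrt x := Real.le_sqrt_of_sq_le hxK
  rw [le_div_iff₀ (by linarith)]
  have h1 := hK x (by linarith)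
  have h2 : (|C| + 1) * Real.sqrt x ≤ (1 / 2) * (Real.sqrt x / Real.sqrt 12 * ∑ p ∈ P, (1 : ℝ) / p) := by
    calc (|C| + 1) * Real.sqrt x
        = (1 / 2) * (Real.sqrt x / Real.sqrt 12 * (2 * Real.sqrt 12 * (|C| + 1))) := by
          field_simp
      _ ≤ _ := by
          apply mul_le_mul_of_nonneg_left _ (by norm_num)
          exact mul_le_mul_of_nonneg_left hsum (by positivity)
  have h3 : C * Real.sqrt x ≤ |C| * Real.sqrt x :=
    mul_le_mul_of_nonneg_right (le_abs_self C) (by linarith)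
  nlinarith

end Pool.Agent.Results.MP_9c9474_nt.Growth
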